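import Pool.Agent.Lib.MP_6b7ffe_lc.Elim

set_option autoImplicit false

namespace Pool.Agent.Results.MP_6b7ffe_lc.K5MinorFree

open Pool.Agent.Lib.MP_6b7ffe_lc

theorem result :
    ∃ f : List (List Bool) → List (ℤ × ℤ × ℤ) × List (List (ℤ × ℤ × ℤ)),
      N68a2faeb.IsPolyTime f ∧
      ∀ (n : ℕ) (G : SimpleGraph (Fin n)) [DecidableRel G.Adj], G.maxDegree ≤ 6 →
        (∀ S : Finset (Fin n), (∀ v ∈ S, 4 ≤ (S.filter (G.Adj v)).card) →
          ¬ CliqueMinorIn G 5 (S : Set (Fin n))) →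
        IsDrawing G
          (fun u => pt ((f (List.ofFn fun a => List.ofFn fun b => decide (G.Adj a b))).1.getD u 0))
          (fun u v => pt (((f (List.ofFn fun a => List.ofFn fun b =>
            decide (G.Adj a b))).2.getD u []).getD v 0)) :=
  ⟨drawK, drawK_poly, fun _ G _ hd hK => mainK G hd hK⟩

end Pool.Agent.Results.MP_6b7ffe_lc.K5MinorFree
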