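import Pool.Agent.Lib.MP_6b7ffe_lc.LS.Main

set_option autoImplicit false

namespace Pool.Agent.Results.MP_6b7ffe_lc.LocallySparse

open Pool.Agent.Lib.MP_6b7ffe_lc.LS

theorem result (a : ℝ) (ha : a < 2) :
    ∃ (K : ℕ) (f : List (List Bool) → List (ℤ × ℤ × ℤ) × List (List (ℤ × ℤ × ℤ))),
      N68a2faeb.IsPolyTime f ∧
      (∀ (n : ℕ) (G : SimpleGraph (Fin n)), DegLe G 6 → LocSparse G a K →
        Draws (f (adjMat G)) G) ∧
      ∀ ε : ℝ, 0 < ε → ∃ n0 : ℕ, ∀ n ≥ n0,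
        (({G : SimpleGraph (Fin n) | Reg G 6 ∧ ¬ Draws (f (adjMat G)) G}.ncard : ℕ) : ℝ) ≤
          ε * (({G : SimpleGraph (Fin n) | Reg G 6}.ncard : ℕ) : ℝ) :=
  main a ha

end Pool.Agent.Results.MP_6b7ffe_lc.LocallySparse
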